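import Pool.Agent.helper96.PP2.SpecC

/-!
# Row HCL: vanishing of H^3 passes to closed subgroups
-/

namespace Pool.Agent.PP2

open Topology Matrix

theorem HCL_row (hCLS : CLS_stmt) (hISO : ISO_stmt) (hTDG : TDG_stmt) : HCL_stmt := by
  intro p R _ _ _ _ _ J hp hS Γ K hΓ hK hle hH
  obtain ⟨hc, h2, ht⟩ := hTDG p R J hS
  haveI := hc
  haveI := h2
  haveI := ht
  haveI hcΓ : CompactSpace Γ := isCompact_iff_compactSpace.mp hΓ.isCompact
  have h1 : IsClosed ((K.subgroupOf Γ : Subgroup Γ) : Set Γ) := by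
    have : ((K.subgroupOf Γ : Subgroup Γ) : Set Γ) = (Subtype.val : Γ → GL (Fin 2) R) ⁻¹' (K : Set (GL (Fin 2) R)) := by
      ext x
      simp [Subgroup.mem_subgroupOf]
    rw [this]
    exact hK.preimage continuous_subtype_val
  have h3 : H3Zero p (K.subgroupOf Γ) := hCLS p Γ hp hH (K.subgroupOf Γ) h1
  let e : (K.subgroupOf Γ) ≃ₜ* K :=
    { Subgroup.subgroupOfEquivOfLe hle with
      continuous_toFun := by
        refine Continuous.subtype_mk (f := fun x : K.subgroupOf Γ => ((x : Γ) : GL (Fin 2) R)) ?_ _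
        exact continuous_subtype_val.comp continuous_subtype_val
      continuous_invFun := by
        refine Continuous.subtype_mk (f := fun x : K => (⟨(x : GL (Fin 2) R), hle x.2⟩ : Γ)) ?_ _
        exact Continuous.subtype_mk continuous_subtype_val _ }
  exact hISO p _ _ e h3

end Pool.Agent.PP2
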