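import Pool.Agent.helper96.PP2.SpecB

/-!
# Row LCT: multiplication by the trace form raises the degree by two
-/

namespace Pool.Agent.PP2

open Topology Matrix

theorem LCT_alg {R : Type} [CommRing R] [Invertible (2 : R)] (N : AddSubgroup (M2 R))
    (hN : ∀ X ∈ N, ⅟(2 : R) • X ∈ N) (X Y U V : M2 R) (hX : Matrix.trace X = 0)
    (hY : Matrix.trace Y = 0) (hU : Matrix.trace U = 0) (hV : Matrix.trace V = 0)
    (h1 : Br X (Br Y (Br U V)) ∈ N) (h2 : Br U (Br Y (Br V X)) ∈ N)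
    (h3 : Br V (Br Y (Br X U)) ∈ N) : Bf X Y • Br U V ∈ N := by
  have ef := Lib_half (R := R)
  have half2 : ∀ W : M2 R, (2 : R) • W ∈ N → W ∈ N := fun W hW => by
    have h := hN _ hW
    rwa [smul_smul, ef, one_smul] at h
  rw [Lib_I1 X Y (Br U V) hX hY (Lib_trace_Br U V)] at h1
  rw [Lib_I1 U Y (Br V X) hU hY (Lib_trace_Br V X)] at h2
  rw [Lib_I1 V Y (Br X U) hV hY (Lib_trace_Br X U)] at h3
  have a1 := half2 _ h1
  have a2 := half2 _ h2
  have a3 := half2 _ h3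
  have e1 : Bf X (Br U V) = Tf X U V := rfl
  have e2 : Bf U (Br V X) = Tf X U V := by rw [Lib_Tf_cycle X U V]; rfl
  have e3 : Bf V (Br X U) = Tf X U V := by rw [← Lib_Tf_cycle V X U]; rfl
  rw [e1] at a1
  rw [e2] at a2
  rw [e3] at a3
  have hI2 := Lib_I2 X U V Y hX hU hV hY
  rw [Lib_Bf_comm Y X, Lib_Bf_comm Y U, Lib_Bf_comm Y V] at hI2
  have a4 := N.add_mem (N.add_mem a1 a2) a3
  have e4 : Bf X Y • Br U V - Tf X U V • Y + (Bf U Y • Br V X - Tf X U V • Y)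
      + (Bf V Y • Br X U - Tf X U V • Y) = -((2 : R) • (Tf X U V • Y)) := by
    have e5 : Bf X Y • Br U V - Tf X U V • Y + (Bf U Y • Br V X - Tf X U V • Y)
      + (Bf V Y • Br X U - Tf X U V • Y) = (Bf X Y • Br U V + Bf U Y • Br V X + Bf V Y • Br X U)
        - Tf X U V • Y - (2 : R) • (Tf X U V • Y) := by
      rw [two_smul]
      abel
    rw [e5, ← hI2, sub_self, zero_sub]
  rw [e4] at a4
  have a5 := half2 _ (N.neg_mem_iff.mp a4)
  have a6 := N.add_mem a1 a5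
  rwa [sub_add_cancel] at a6

theorem LCT_row (hHAV : HAV_stmt) (hLTR : LTR_stmt) (hLLE : LLE_stmt) : LCT_stmt := by
  intro p R _ _ _ _ _ _ J hp hp2 hS Γ hΓ n hn X hX Y hY Z hZ
  obtain ⟨m, rfl⟩ : ∃ m, n = m + 1 := ⟨n - 1, by omega⟩
  obtain ⟨hL1, hL2⟩ := hLLE R Γ
  have hT : ∀ k, ∀ W ∈ Lc Γ k, Matrix.trace W = 0 := fun k W hW =>
    ((hLTR p R J hp hp2 hS Γ hΓ k).2 W hW).1
  have hcl : IsClosed (Lc Γ (m + 1 + 2) : Set (M2 R)) := (hLTR p R J hp hp2 hS Γ hΓ _).1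
  have hH : ∀ W ∈ Lc Γ (m + 1 + 2), ⅟(2 : R) • W ∈ Lc Γ (m + 1 + 2) :=
    (hHAV p R J hp hp2 hS).1 _ hcl
  have hle : Lc Γ (m + 1) ≤ (Lc Γ (m + 1 + 2)).comap
      (DistribSMul.toAddMonoidHom (M2 R) (Bf X Y)) := by
    have e : Lc Γ (m + 1) = (AddSubgroup.closure
      {Z | ∃ X ∈ LL Γ, ∃ Y ∈ Lc Γ m, Z = Br X Y}).topologicalClosure := rfl
    rw [e]
    apply AddSubgroup.topologicalClosure_minimal
    · rw [AddSubgroup.closure_le]
      rintro W ⟨U, hU, V, hV, rfl⟩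
      rw [SetLike.mem_coe, AddSubgroup.mem_comap]
      change Bf X Y • Br U V ∈ Lc Γ (m + 1 + 2)
      have k1 : Br X (Br Y (Br U V)) ∈ Lc Γ (m + 1 + 2) := by
        have b1 := hL2 0 m U hU V hV
        have b2 := hL2 0 _ Y hY _ b1
        have b3 := hL2 0 _ X hX _ b2
        have e1 : 0 + (0 + (0 + m + 1) + 1) + 1 = m + 1 + 2 := by omega
        rwa [e1] at b3
      have k2 : Br U (Br Y (Br V X)) ∈ Lc Γ (m + 1 + 2) := by
        have b1 := hL2 m 0 V hV X hX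
        have b2 := hL2 0 _ Y hY _ b1
        have b3 := hL2 0 _ U hU _ b2
        have e1 : 0 + (0 + (m + 0 + 1) + 1) + 1 = m + 1 + 2 := by omega
        rwa [e1] at b3
      have k3 : Br V (Br Y (Br X U)) ∈ Lc Γ (m + 1 + 2) := by
        have b1 := hL2 0 0 X hX U hU
        have b2 := hL2 0 _ Y hY _ b1
        have b3 := hL2 m _ V hV _ b2
        have e1 : m + (0 + (0 + 0 + 1) + 1) + 1 = m + 1 + 2 := by omega
        rwa [e1] at b3
      exact LCT_alg _ hH X Y U V (hT 0 X hX) (hT 0 Y hY) (hT 0 U hU) (hT m V hV) k1 k2 k3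
    · have hc : Continuous fun W : M2 R => Bf X Y • W := continuous_const_smul (Bf X Y)
      exact hcl.preimage hc
  exact hle hZ

end Pool.Agent.PP2
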